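import Pool.Agent.Helper97.Hilb8.K.A.ClAll

/-! Checks. -/

set_option linter.all false
set_option maxRecDepth 1000000
set_option maxHeartbeats 0

noncomputable section

namespace Pool.Agent.Helper97.Hilb8.K.A

theorem chk0 : chkC (rule 4409779687062524041073593199833914043050744820349218621826150416149098788708419200047405529563136 8543948143683640329580086824678208458410818089426611079788166431288878903122562200091844052779008 322 M T R Y) D D0 = true := by decide +kernel

theorem chk1 : chkC (rule 4409779687062524041073593199833914043050744820349218621826150416149098788708419200047405529563136 8543948143683640329580086824678208458410818089426611079788166431288878903122562200091844052779008 322 M T R Y) D D1 = true := by decide +kernel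

theorem chk2 : chkC (rule 4409779687062524041073593199833914043050744820349218621826150416149098788708419200047405529563136 8543948143683640329580086824678208458410818089426611079788166431288878903122562200091844052779008 322 M T R Y) D D2 = true := by decide +kernel

theorem chk3 : chkC (rule 4409779687062524041073593199833914043050744820349218621826150416149098788708419200047405529563136 8543948143683640329580086824678208458410818089426611079788166431288878903122562200091844052779008 322 M T R Y) D D3 = true := by decide +kernel

theorem chk4 : chkC (rule 4409779687062524041073593199833914043050744820349218621826150416149098788708419200047405529563136 8543948143683640329580086824678208458410818089426611079788166431288878903122562200091844052779008 322 M T R Y) D D4 = true := by decide +kernel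

theorem chk5 : chkC (rule 4409779687062524041073593199833914043050744820349218621826150416149098788708419200047405529563136 8543948143683640329580086824678208458410818089426611079788166431288878903122562200091844052779008 322 M T R Y) D D5 = true := by decide +kernel

theorem chk6 : chkC (rule 4409779687062524041073593199833914043050744820349218621826150416149098788708419200047405529563136 8543948143683640329580086824678208458410818089426611079788166431288878903122562200091844052779008 322 M T R Y) D D6 = true := by decide +kernel

theorem chk7 : chkC (rule 4409779687062524041073593199833914043050744820349218621826150416149098788708419200047405529563136 8543948143683640329580086824678208458410818089426611079788166431288878903122562200091844052779008 322 M T R Y) D D7 = true := by decide +kernel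

theorem chk8 : chkC (rule 4409779687062524041073593199833914043050744820349218621826150416149098788708419200047405529563136 8543948143683640329580086824678208458410818089426611079788166431288878903122562200091844052779008 322 M T R Y) D D8 = true := by decide +kernel

theorem chk9 : chkC (rule 4409779687062524041073593199833914043050744820349218621826150416149098788708419200047405529563136 8543948143683640329580086824678208458410818089426611079788166431288878903122562200091844052779008 322 M T R Y) D D9 = true := by decide +kernel

end Pool.Agent.Helper97.Hilb8.K.A
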