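import Pool.Agent.Helper97.Hilb8.K.A.CertTab
import Pool.Agent.Helper97.Hilb8.K.A.DerTab
import Pool.Agent.Helper97.Hilb8.K.A.ThTab
import Pool.Agent.Helper97.Hilb8.K.A.Tab
import Pool.Agent.Helper97.Hilb8.K.A.RawTab
import Pool.Agent.Helper97.Hilb8.K.A.PtsTab

/-! Checks. -/

set_option linter.all false
set_option maxRecDepth 1000000
set_option maxHeartbeats 0

noncomputable section

namespace Pool.Agent.Helper97.Hilb8.K.A

/-- Generators with `f`. -/
def E2 : Tr := .node E 9999 0 f0k .leaf

/-- Substitution. -/
def JV : V := mkJV VP jv 0

theorem d1 : goodT 4409779687062524041073593199833914043050744820349218621826150416149098788708419200047405529563136 126 DE1 = true := by decide +kernel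

theorem d2 : chkJ 4409779687062524041073593199833914043050744820349218621826150416149098788708419200047405529563136 E DE1 J1 0 = true := by decide +kernel

theorem d3 : goodT 4409779687062524041073593199833914043050744820349218621826150416149098788708419200047405529563136 259 DE2 = true := by decide +kernel

theorem d4 : chkJ 4409779687062524041073593199833914043050744820349218621826150416149098788708419200047405529563136 E2 DE2 J2 0 = true := by decide +kernel

theorem d5 : chkT 4409779687062524041073593199833914043050744820349218621826150416149098788708419200047405529563136 DE2 259 T T2 0 = true := by decide +kernel

theorem a1 : chkA 4409779687062524041073593199833914043050744820349218621826150416149098788708419200047405529563136 VP JV V0 io f0k DE1 126 T1 0 = true := by decide +kernel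

theorem a2 : sP 4409779687062524041073593199833914043050744820349218621826150416149098788708419200047405529563136 VP isZero f0 (addm 0 0 1 f0k .z) = true := by decide +kernel

theorem a3 : goodP 4409779687062524041073593199833914043050744820349218621826150416149098788708419200047405529563136 f0k = true := by decide +kernel

theorem a4 : JV.posOK 25 0 = true := by decide +kernel

theorem a5 : JV.good 4409779687062524041073593199833914043050744820349218621826150416149098788708419200047405529563136 = true := by decide +kernel

end Pool.Agent.Helper97.Hilb8.K.A
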