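import Pool.Agent.Helper97.Hilb8.K.A.ThTab
import Pool.Agent.Helper97.Hilb8.K.A.ComTab

/-! Checks. -/

set_option linter.all false
set_option maxRecDepth 1000000
set_option maxHeartbeats 0

noncomputable section

namespace Pool.Agent.Helper97.Hilb8.K.A

theorem x1 : comb 10113823609099029547247175022248546280303962389929013597385115975465951724008361797397495347218337465153553733626062288809244540910920412046539811877765734061032002339686971707097299171809847734119170048 0 CT 4096 isZero fcl (addm xk 0 1 f .z) = true := by decide +kernel

end Pool.Agent.Helper97.Hilb8.K.A
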