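import Pool.Agent.Helper97.Hilb8.K.A.PtsTab
import Pool.Agent.Helper97.Hilb8.K.A.Tab
import Pool.Agent.Helper97.Hilb8.K.A.RelTab

/-! Checks. -/

set_option linter.all false
set_option maxRecDepth 1000000
set_option maxHeartbeats 0

noncomputable section

namespace Pool.Agent.Helper97.Hilb8.K.A

theorem pt1 : potOK pA pMO pS (fun c => c) p0 q0 pWO = true := by decide +kernel

theorem pt2 : optOK pA pB pMO pS pS2 (fun c => c) p0 q0 sg0 p02 q02 = true := by decide +kernel

theorem pt3 : potsOK pA pMO pS pWO pT wr 0 = true := by decide +kernel

theorem pt4 : optsOK pA pB pMO pS pS2 pT io = true := by decide +kernel

theorem pt5 : indepOK pMO pG sg0 pT zl 0 = true := by decide +kernel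

theorem pt6 : distinct zl 0 = true := by decide +kernel

theorem pt7 : zOK zl zk io 58 = true := by decide +kernel

theorem pt8 : distinct io 0 = true := by decide +kernel

theorem t1 : posOK 58 ws 0 = true := by decide +kernel

theorem t2 : tabOK 4409779687062524041073593199833914043050744820349218621826150416149098788708419200047405529563136 8268336913242232577012987249688588830720146538154784915924032030279560228828286000088881341399040 206 ws T = true := by decide +kernel

theorem t3 : present T 206 = true := by decide +kernel

theorem t4 : msOK 4409779687062524041073593199833914043050744820349218621826150416149098788708419200047405529563136 8268336913242232577012987249688588830720146538154784915924032030279560228828286000088881341399040 M = true := by decide +kernel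

theorem t5 : relsOK 4409779687062524041073593199833914043050744820349218621826150416149098788708419200047405529563136 322 ws T R = true := by decide +kernel

theorem t6 : elims 58 8543948143683640329580086824678208458410818089426611079788166431288878903122562200091844052779008 8268336913242232577012987249688588830720146538154784915924032030279560228828286000088881341399040 322 32 R Y = true := by decide +kernel

end Pool.Agent.Helper97.Hilb8.K.A
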