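import Pool.Agent.Helper97.Hilb8.K.Final
import Pool.Agent.Helper97.Hilb8.K.Inst
import Pool.Agent.Helper97.Hilb8.K.A.RawChk
import Pool.Agent.Helper97.Hilb8.K.A.DerChk
import Pool.Agent.Helper97.Hilb8.K.A.ThChk
import Pool.Agent.Helper97.Hilb8.K.A.ExChk
import Pool.Agent.Helper97.Hilb8.K.A.PtsChk
import Pool.Agent.Helper97.Hilb8.K.A.Chk0
import Pool.Agent.Helper97.Hilb8.K.A.Chk1
import Pool.Agent.Helper97.Hilb8.K.A.Rw0
import Pool.Agent.Helper97.Hilb8.K.A.Rw1

/-! Data and checks of the chart. -/

set_option linter.all false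
set_option maxRecDepth 1000000
set_option maxHeartbeats 0

noncomputable section

namespace Pool.Agent.Helper97.Hilb8.K.A

/-- The data of the chart. -/
def data : Data where
  sh := 672
  G := 10113823609099029547247175022248546280303962389929013597385115975465951724008361797397495347218337465153553733626062288809244540910920412046539811877765734061032002339686971707097299171809847734119170048
  LOW := 19595533242629369747791401605606558418088927130487463844933662202465281465266200982457647235235528838735010358900495684567911298014908298340170885513171109743249504533143507682501017145381579980695142400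
  SQ := 18963419267060680401088453166716024275569929481116900495097092453998659482515678370120303776034382747162913250548866791517333514207975772587262147270810751364435004386913071950807435947143464497446912000
  NX := NX
  VK := VK
  cT := CT
  wr := wr
  cK := C
  io := io
  VP := VP
  ve := ve
  NE := 106
  gE := E
  ND := 126
  gD := DE1
  f := f
  f0 := f0
  f0k := f0k
  d0 := d0
  xi := 37
  xk := xk
  fcl := fcl
  ND2 := 259
  D2 := DE2
  N := 206
  tT := T
  wk := ws
  tM := M
  tR := R
  tY := Y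
  DC := D
  cD := CD
  wD := wD
  VT := VT
  V0 := V0
  jv := jv
  tA := T1
  mD := maskD
  pA := pA
  pB := pB
  pMO := pMO
  pS := pS
  pS2 := pS2
  pWO := pWO
  pG := pG
  sg0 := sg0
  p0 := p0
  q0 := q0
  p02 := p02
  q02 := q02
  pT := pT
  zl := zl
  zk := zk

theorem lenR0 : RL0.len = 73 := by decide +kernel

theorem lenR1 : RL1.len = 20 := by decide +kernel

theorem lenR2 : RL2.len = 9 := by decide +kernel

theorem lenR3 : RL3.len = 4 := by decide +kernel

theorem lenJ1 : J1.len = 126 := by decide +kernel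

theorem lenJ2 : J2.len = 259 := by decide +kernel

theorem lenT2 : T2.len = 206 := by decide +kernel

theorem lenRW0 : RW0.len = 67 := by decide +kernel

theorem lenRW1 : RW1.len = 29 := by decide +kernel

theorem lenRW2 : RW2.len = 14 := by decide +kernel

theorem lenRW3 : RW3.len = 16 := by decide +kernel

theorem lenRW4 : RW4.len = 12 := by decide +kernel

theorem lenRW5 : RW5.len = 12 := by decide +kernel

theorem lenRW6 : RW6.len = 10 := by decide +kernel

theorem lenRW7 : RW7.len = 11 := by decide +kernel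

theorem lenRW8 : RW8.len = 8 := by decide +kernel

theorem lenRW9 : RW9.len = 8 := by decide +kernel

theorem lenRW10 : RW10.len = 8 := by decide +kernel

theorem lenRW11 : RW11.len = 10 := by decide +kernel

theorem lenRW12 : RW12.len = 1 := by decide +kernel

theorem hC : (Cst.mk (8 * chartA.nb) data.sh data.G data.LOW data.SQ).ok := by
  unfold Cst.ok; decide +kernel

theorem hC' : C.ok := by
  unfold Cst.ok; decide +kernel

theorem hCD : CD.ok := by
  unfold Cst.ok; decide +kernel

theorem hNX : ∀ (i : Fin 4) (c : Fin 8), chartA.nxt i c = NX.get (8 * i + c) := by decide +kernel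

theorem hMO : ∀ n < 8 + chartA.nb, ∀ i : Fin 4, chartA.mono n i = mo pMO n i := by decide +kernel

theorem hlen : io.len = C.n := by decide +kernel

theorem hxk : Nat.land xk data.G = 0 ∧
    Nat.land xk data.LOW = Nat.shiftLeft 1 (Nat.add 32 (Nat.mul 5 (io.get 37))) := by decide +kernel

theorem hmD : ∀ v < CD.n, dig maskD v = 0 ∨ dig maskD v = 31 := by decide +kernel

theorem hjv : jv.len = CD.n := by decide +kernel

theorem hjb : ∀ i < CD.n, jv.get i < 8 * chartA.nb := by decide +kernel

theorem htA : T1.len = C.n := by decide +kernel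

theorem hR : ∀ i < data.NE, ∃ l i0, i0 ≤ i ∧ i < i0 + l.len ∧ chkR data.G data.sh data.wr data.cT data.cK.G data.VP data.gE l i0 = true := by
  intro i hi
  have hi' : i < 106 := hi
  by_cases h0 : i < 73
  · exact ⟨RL0, 0, by omega, by rw [lenR0]; omega, r0⟩
  by_cases h1 : i < 93
  · exact ⟨RL1, 73, by omega, by rw [lenR1]; omega, r1⟩
  by_cases h2 : i < 102
  · exact ⟨RL2, 93, by omega, by rw [lenR2]; omega, r2⟩
  exact ⟨RL3, 102, by omega, by rw [lenR3]; omega, r3⟩

theorem hJ : ∀ i < data.ND, ∃ l i0, i0 ≤ i ∧ i < i0 + l.len ∧ chkJ data.cK.G data.gE data.gD l i0 = true := by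
  intro i hi
  have hi' : i < 126 := hi
  exact ⟨J1, 0, by omega, by rw [lenJ1]; omega, d2⟩

theorem hJ2 : ∀ i < data.ND2, ∃ l i0, i0 ≤ i ∧ i < i0 + l.len ∧ chkJ data.cK.G data.E2 data.D2 l i0 = true := by
  intro i hi
  have hi' : i < 259 := hi
  exact ⟨J2, 0, by omega, by rw [lenJ2]; omega, d4⟩

theorem hT2 : ∀ i < data.N, ∃ l i0, i0 ≤ i ∧ i < i0 + l.len ∧
    chkT data.cK.G data.D2 data.ND2 data.tT l i0 = true := by
  intro i hi
  have hi' : i < 206 := hi
  exact ⟨T2, 0, by omega, by rw [lenT2]; omega, d5⟩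

theorem hrows : ∀ i < data.N, ∃ l i0, i0 ≤ i ∧ i < i0 + l.len ∧ rows data.cK.G data.cK.LOW data.cK.sh data.tT l i0 = true := by
  intro i hi
  have hi' : i < 206 := hi
  by_cases h0 : i < 67
  · exact ⟨RW0, 0, by omega, by rw [lenRW0]; omega, rw0⟩
  by_cases h1 : i < 96
  · exact ⟨RW1, 67, by omega, by rw [lenRW1]; omega, rw1⟩
  by_cases h2 : i < 110
  · exact ⟨RW2, 96, by omega, by rw [lenRW2]; omega, rw2⟩
  by_cases h3 : i < 126
  · exact ⟨RW3, 110, by omega, by rw [lenRW3]; omega, rw3⟩
  by_cases h4 : i < 138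
  · exact ⟨RW4, 126, by omega, by rw [lenRW4]; omega, rw4⟩
  by_cases h5 : i < 150
  · exact ⟨RW5, 138, by omega, by rw [lenRW5]; omega, rw5⟩
  by_cases h6 : i < 160
  · exact ⟨RW6, 150, by omega, by rw [lenRW6]; omega, rw6⟩
  by_cases h7 : i < 171
  · exact ⟨RW7, 160, by omega, by rw [lenRW7]; omega, rw7⟩
  by_cases h8 : i < 179
  · exact ⟨RW8, 171, by omega, by rw [lenRW8]; omega, rw8⟩
  by_cases h9 : i < 187
  · exact ⟨RW9, 179, by omega, by rw [lenRW9]; omega, rw9⟩
  by_cases h10 : i < 195
  · exact ⟨RW10, 187, by omega, by rw [lenRW10]; omega, rw10⟩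
  by_cases h11 : i < 205
  · exact ⟨RW11, 195, by omega, by rw [lenRW11]; omega, rw11⟩
  exact ⟨RW12, 205, by omega, by rw [lenRW12]; omega, rw12⟩

theorem nl584 : litsOK (.c 244 (.c 276 (.c 1389 .e))) = true := by decide +kernel

theorem nn584 : nodeOK (rule data.cK.G data.cK.LOW data.cK.sh data.tM data.tT data.tR data.tY) data.DC 584 (.c 244 (.c 276 (.c 1389 .e))) (.rul 0 0 0) = true := by decide +kernel

theorem nl1168 : litsOK (.c 218 (.c 2271 .e)) = true := by decide +kernel

theorem nn1168 : nodeOK (rule data.cK.G data.cK.LOW data.cK.sh data.tM data.tT data.tR data.tY) data.DC 1168 (.c 218 (.c 2271 .e)) (.rul 2 0 0) = true := by decide +kernel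

theorem nl1752 : litsOK (.c 111 (.c 283 .e)) = true := by decide +kernel

theorem nn1752 : nodeOK (rule data.cK.G data.cK.LOW data.cK.sh data.tM data.tT data.tR data.tY) data.DC 1752 (.c 111 (.c 283 .e)) (.rul 3 113 0) = true := by decide +kernel

theorem nl2336 : litsOK (.c 79 (.c 219 (.c 225 (.c 247 (.c 259 .e))))) = true := by decide +kernel

theorem nn2336 : nodeOK (rule data.cK.G data.cK.LOW data.cK.sh data.tM data.tT data.tR data.tY) data.DC 2336 (.c 79 (.c 219 (.c 225 (.c 247 (.c 259 .e))))) (.rul 5 135 0) = true := by decide +kernel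

theorem nl2628 : litsOK (.c 254 (.c 2678 (.c 2626 (.c 722 (.c 601 (.c 2674 (.c 2682 (.c 146 (.c 258 (.c 613 (.c 609 (.c 2606 (.c 202 (.c 685 (.c 246 .e))))))))))))))) = true := by decide +kernel

theorem nn2628 : nodeOK (rule data.cK.G data.cK.LOW data.cK.sh data.tM data.tT data.tR data.tY) data.DC 2628 (.c 254 (.c 2678 (.c 2626 (.c 722 (.c 601 (.c 2674 (.c 2682 (.c 146 (.c 258 (.c 613 (.c 609 (.c 2606 (.c 202 (.c 685 (.c 246 .e))))))))))))))) (.rup 22743612) = true := by decide +kernel

theorem nl2774 : litsOK (.c 178 (.c 2562 (.c 245 (.c 269 (.c 145 (.c 169 (.c 153 (.c 137 (.c 141 (.c 185 (.c 170 (.c 246 (.c 281 (.c 66 .e)))))))))))))) = true := by decide +kernel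

theorem nn2774 : nodeOK (rule data.cK.G data.cK.LOW data.cK.sh data.tM data.tT data.tR data.tY) data.DC 2774 (.c 178 (.c 2562 (.c 245 (.c 269 (.c 145 (.c 169 (.c 153 (.c 137 (.c 141 (.c 185 (.c 170 (.c 246 (.c 281 (.c 66 .e)))))))))))))) (.rup 136159578145972070074744676612805738864081976565495296937065691463198122012472258354791973961086987013844445971327424982944337926959390527093001355925265150224992858464735034426108593934352937129727708193280063617987411353157842126868931566222097853443349171851546338997188476786095855016087615016383901765905761120928126885761153004304624713902788819249475676167184983175170295623120911143346222281416441828804860963803176866604308074316919889741839415622904518915568769282403388602849150788955968449861077530) = true := by decide +kernel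

theorem nl2920 : litsOK (.c 445 (.c 248 .e)) = true := by decide +kernel

theorem nn2920 : nodeOK (rule data.cK.G data.cK.LOW data.cK.sh data.tM data.tT data.tR data.tY) data.DC 2920 (.c 445 (.c 248 .e)) (.rup 1231362) = true := by decide +kernel

theorem nl3066 : litsOK (.c 70 (.c 1637 (.c 1641 (.c 254 (.c 146 (.c 693 (.c 722 (.c 2206 (.c 2190 (.c 2850 (.c 2990 (.c 2846 (.c 2882 (.c 2870 (.c 689 (.c 697 (.c 186 (.c 250 (.c 238 (.c 1114 (.c 1078 (.c 2986 (.c 962 (.c 2998 (.c 2830 (.c 2834 (.c 2858 (.c 2826 (.c 2842 (.c 2838 (.c 2854 (.c 155 (.c 266 (.c 278 (.c 139 (.c 171 (.c 354 (.c 282 .e)))))))))))))))))))))))))))))))))))))) = true := by decide +kernel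

theorem nn3066 : nodeOK (rule data.cK.G data.cK.LOW data.cK.sh data.tM data.tT data.tR data.tY) data.DC 3066 (.c 70 (.c 1637 (.c 1641 (.c 254 (.c 146 (.c 693 (.c 722 (.c 2206 (.c 2190 (.c 2850 (.c 2990 (.c 2846 (.c 2882 (.c 2870 (.c 689 (.c 697 (.c 186 (.c 250 (.c 238 (.c 1114 (.c 1078 (.c 2986 (.c 962 (.c 2998 (.c 2830 (.c 2834 (.c 2858 (.c 2826 (.c 2842 (.c 2838 (.c 2854 (.c 155 (.c 266 (.c 278 (.c 139 (.c 171 (.c 354 (.c 282 .e)))))))))))))))))))))))))))))))))))))) (.rup 1975592398298907637913058582943059763964290505501494754323576038216551384282921586016046609486015736418390322928052002989375888955871112314688177980049970407467899433753762808136797) = true := by decide +kernel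

theorem nl3212 : litsOK (.c 186 (.c 259 (.c 247 (.c 223 (.c 153 (.c 184 (.c 244 (.c 141 (.c 137 (.c 68 (.c 154 (.c 280 (.c 256 .e))))))))))))) = true := by decide +kernel

theorem nn3212 : nodeOK (rule data.cK.G data.cK.LOW data.cK.sh data.tM data.tT data.tR data.tY) data.DC 3212 (.c 186 (.c 259 (.c 247 (.c 223 (.c 153 (.c 184 (.c 244 (.c 141 (.c 137 (.c 68 (.c 154 (.c 280 (.c 256 .e))))))))))))) (.rup 3885819144094778881899087636261635544351677981166442754950107682871460786411196218558567095827366924250969292927475942297612914144302666455362722243975248621070656046989733917611479460802729598453587929195179527491556602883677212743237773576352685653690155890266483422579576170923140002151381674957283804644823264596501974477354480140105524541422679689064149434398479237055203817) = true := by decide +kernel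

theorem nl3358 : litsOK (.c 75 (.c 138 (.c 98 (.c 278 (.c 270 (.c 198 (.c 142 (.c 78 (.c 2218 (.c 72 .e)))))))))) = true := by decide +kernel

theorem nn3358 : nodeOK (rule data.cK.G data.cK.LOW data.cK.sh data.tM data.tT data.tR data.tY) data.DC 3358 (.c 75 (.c 138 (.c 98 (.c 278 (.c 270 (.c 198 (.c 142 (.c 78 (.c 2218 (.c 72 .e)))))))))) (.rup 17420496359002975096426956534513992818) = true := by decide +kernel

theorem nl3504 : litsOK (.c 93 (.c 222 (.c 119 (.c 2894 (.c 2670 (.c 2890 (.c 271 .e))))))) = true := by decide +kernel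

theorem nn3504 : nodeOK (rule data.cK.G data.cK.LOW data.cK.sh data.tM data.tT data.tR data.tY) data.DC 3504 (.c 93 (.c 222 (.c 119 (.c 2894 (.c 2670 (.c 2890 (.c 271 .e))))))) (.rup 149030145858010549639) = true := by decide +kernel

theorem nl3650 : litsOK (.c 210 (.c 139 (.c 2166 (.c 2150 (.c 226 (.c 266 (.c 202 (.c 2342 (.c 250 (.c 142 (.c 2374 (.c 90 (.c 77 (.c 74 (.c 70 .e))))))))))))))) = true := by decide +kernel

theorem nn3650 : nodeOK (rule data.cK.G data.cK.LOW data.cK.sh data.tM data.tT data.tR data.tY) data.DC 3650 (.c 210 (.c 139 (.c 2166 (.c 2150 (.c 226 (.c 266 (.c 202 (.c 2342 (.c 250 (.c 142 (.c 2374 (.c 90 (.c 77 (.c 74 (.c 70 .e))))))))))))))) (.rup 5981204485224980015377596926796606635815828384130093365085535496038268200812340326534795036178707846771805852118990885511614286926278592761519396457972) = true := by decide +kernel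

theorem nl3796 : litsOK (.c 140 (.c 213 (.c 142 (.c 97 (.c 187 (.c 224 (.c 250 (.c 258 (.c 89 (.c 77 (.c 73 (.c 69 (.c 66 .e))))))))))))) = true := by decide +kernel

theorem nn3796 : nodeOK (rule data.cK.G data.cK.LOW data.cK.sh data.tM data.tT data.tR data.tY) data.DC 3796 (.c 140 (.c 213 (.c 142 (.c 97 (.c 187 (.c 224 (.c 250 (.c 258 (.c 89 (.c 77 (.c 73 (.c 69 (.c 66 .e))))))))))))) (.rup 2004912669566208214783633323628338772249547734732954838545370165396947923260581054043434905360824407834546532095802639869023515256260378569924946797366823035464315676522372444946015941981093421399248053525995507515437214251216661086009223607362087697642582216879930894994934) = true := by decide +kernel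

theorem nl3942 : litsOK (.c 223 (.c 278 (.c 138 (.c 3086 (.c 2166 (.c 250 (.c 186 (.c 259 (.c 2218 (.c 1254 (.c 2350 (.c 77 (.c 74 .e))))))))))))) = true := by decide +kernel

theorem nn3942 : nodeOK (rule data.cK.G data.cK.LOW data.cK.sh data.tM data.tT data.tR data.tY) data.DC 3942 (.c 223 (.c 278 (.c 138 (.c 3086 (.c 2166 (.c 250 (.c 186 (.c 259 (.c 2218 (.c 1254 (.c 2350 (.c 77 (.c 74 .e))))))))))))) (.rup 632142274043882439136607480201508616589085926859980460625670080438075592179) = true := by decide +kernel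

theorem nl4088 : litsOK (.c 202 (.c 225 (.c 146 (.c 278 (.c 259 (.c 138 (.c 214 (.c 226 (.c 860 (.c 186 (.c 142 (.c 250 (.c 77 (.c 73 (.c 69 (.c 66 .e)))))))))))))))) = true := by decide +kernel

theorem nn4088 : nodeOK (rule data.cK.G data.cK.LOW data.cK.sh data.tM data.tT data.tR data.tY) data.DC 4088 (.c 202 (.c 225 (.c 146 (.c 278 (.c 259 (.c 138 (.c 214 (.c 226 (.c 860 (.c 186 (.c 142 (.c 250 (.c 77 (.c 73 (.c 69 (.c 66 .e)))))))))))))))) (.rup 243175995747587871381341076875724879087670390277502216399780706073639834783178488783756088668114216636715964141381401334968597015417228511980055736931463147232528790168089565480213510583665947553566251588548915733630168898500901165969483857018851293680357238399944625393318847312559472072016507147556250789808863821850548397264652423122882642557856212319144212765310597619575848713900310951053061536686530247101018033728791508677403169625168748103489638161818110913899286278111535573701638821097526232950060879347) = true := by decide +kernel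

theorem nl4234 : litsOK (.c 258 (.c 214 (.c 224 (.c 96 (.c 186 (.c 142 (.c 2562 (.c 2586 (.c 2970 (.c 251 (.c 873 (.c 69 (.c 65 .e))))))))))))) = true := by decide +kernel

theorem nn4234 : nodeOK (rule data.cK.G data.cK.LOW data.cK.sh data.tM data.tT data.tR data.tY) data.DC 4234 (.c 258 (.c 214 (.c 224 (.c 96 (.c 186 (.c 142 (.c 2562 (.c 2586 (.c 2970 (.c 251 (.c 873 (.c 69 (.c 65 .e))))))))))))) (.rup 94452078980164228833832951811555337565497759206313) = true := by decide +kernel

theorem nl4380 : litsOK (.c 2142 (.c 2914 (.c 2946 (.c 2166 (.c 106 (.c 2942 (.c 178 (.c 2150 (.c 2910 (.c 2146 (.c 2162 (.c 226 (.c 2926 (.c 2898 (.c 2906 (.c 2922 (.c 2938 (.c 2902 (.c 2918 .e))))))))))))))))))) = true := by decide +kernel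

theorem nn4380 : nodeOK (rule data.cK.G data.cK.LOW data.cK.sh data.tM data.tT data.tR data.tY) data.DC 4380 (.c 2142 (.c 2914 (.c 2946 (.c 2166 (.c 106 (.c 2942 (.c 178 (.c 2150 (.c 2910 (.c 2146 (.c 2162 (.c 226 (.c 2926 (.c 2898 (.c 2906 (.c 2922 (.c 2938 (.c 2902 (.c 2918 .e))))))))))))))))))) (.rup 8555165279800843) = true := by decide +kernel

theorem nl4526 : litsOK (.c 152 (.c 256 (.c 76 (.c 73 (.c 65 .e))))) = true := by decide +kernel

theorem nn4526 : nodeOK (rule data.cK.G data.cK.LOW data.cK.sh data.tM data.tT data.tR data.tY) data.DC 4526 (.c 152 (.c 256 (.c 76 (.c 73 (.c 65 .e))))) (.rup 401703950454779731636612675023647740792559547428539428500836583984491314071095218981563993216078672604212566829333359153772880743969123009897168392387239788787) = true := by decide +kernel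

theorem hDC : chkC (rule data.cK.G data.cK.LOW data.cK.sh data.tM data.tT data.tR data.tY) D D = true :=
  ((chkC_node _ _ _ _ _ _ _).2 ⟨((chkC_node _ _ _ _ _ _ _).2 ⟨((chkC_node _ _ _ _ _ _ _).2 ⟨chk0, chk1, nl584, nn584⟩), ((chkC_node _ _ _ _ _ _ _).2 ⟨chk2, chk3, nl1752, nn1752⟩), nl1168, nn1168⟩), ((chkC_node _ _ _ _ _ _ _).2 ⟨((chkC_node _ _ _ _ _ _ _).2 ⟨((chkC_node _ _ _ _ _ _ _).2 ⟨chk4, ((chkC_node _ _ _ _ _ _ _).2 ⟨chk5, chk6, nl2774, nn2774⟩), nl2628, nn2628⟩), ((chkC_node _ _ _ _ _ _ _).2 ⟨((chkC_node _ _ _ _ _ _ _).2 ⟨chk7, chk8, nl3066, nn3066⟩), ((chkC_node _ _ _ _ _ _ _).2 ⟨chk9, chk10, nl3358, nn3358⟩), nl3212, nn3212⟩), nl2920, nn2920⟩), ((chkC_node _ _ _ _ _ _ _).2 ⟨((chkC_node _ _ _ _ _ _ _).2 ⟨((chkC_node _ _ _ _ _ _ _).2 ⟨chk11, chk12, nl3650, nn3650⟩), ((chkC_node _ _ _ _ _ _ _).2 ⟨chk13, chk14, nl3942, nn3942⟩), nl3796, nn3796⟩), ((chkC_node _ _ _ _ _ _ _).2 ⟨((chkC_node _ _ _ _ _ _ _).2 ⟨chk15, chk16, nl4234, nn4234⟩), ((chkC_node _ _ _ _ _ _ _).2 ⟨chk17, chk18, nl4526, nn4526⟩),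 nl4380, nn4380⟩), nl4088, nn4088⟩), nl3504, nn3504⟩), nl2336, nn2336⟩)

theorem hlast : ∃ i w, lookC D i = .some .e w :=
  exists_last D 4671 (by decide +kernel)

/-- The checks of the chart. -/
theorem ok : data.OK chartA where
  hC := hC
  hNX := hNX
  hV := c1
  hV' := c2
  hCT := c3
  hAll := c4
  hwr := h9
  hwT := c5
  hC' := hC'
  hVP := c6
  hVg := c7
  hio := c8
  hlen := hlen
  hdist := pt8
  hve := c9
  hE := c10
  hR := hR
  hD := d1
  hJ := hJ
  hf := h1
  hf0 := a2
  hf0k := a3
  hxi := by decide +kernel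
  hxk := hxk
  hfc := x1
  hD2 := d3
  hJ2 := hJ2
  hT2 := hT2
  hwk := t1
  hT := t2
  hN := t3
  hrows := hrows
  hM := t4
  hRel := t5
  hY := t6
  hDC := hDC
  hlast := hlast
  hCD := hCD
  hwD := h7
  hVT := h2
  hVTg := h4
  hV0 := h3
  hV0g := h5
  hz := h10
  htV := h6
  hmD := hmD
  hs := h8
  hjv := hjv
  hjb := hjb
  hJVp := a4
  hJVg := a5
  htA := htA
  hA := a1
  hMO := hMO
  hp1 := pt1
  hp2 := pt2
  hp3 := pt3
  hp4 := pt4
  hp5 := pt5
  hp6 := pt6
  hp7 := pt7

end Pool.Agent.Helper97.Hilb8.K.A
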